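import Pool.Agent.H910.Cf.Sst

/-!
# Surfaces with ramified maps to the space of the binary forms are hyperbolic if and only if all
their subvarieties are of general type

Let `X` be a complex projective variety with the function field `K` and the generic point `x`
(homogeneous coordinates in `K`; `coords ℂ x = ⊤` says that their ratios generate `K`). `P^(n + 1)` is
the space of the binary forms `y` of degree `n + 1`. A rational map `y` from `X` to this space, with
image not contained in the discriminant hypersurface, is *ramified* (`RamP`) if there are distinct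
numbers `a i` and weights `μ i ≤ M`, `c i` and `cD` with
`(n + 1) (∑ c i + 2 n cD) + 2 M < ∑ μ i`, such that at all places of the points of `X` (with
coordinates in a field extension of `ℂ`, outside of a proper closed subset) the orders of contact
`s i` of the image with the hyperplanes of the forms which vanish at `(1 : a i)` and `t` with the
discriminant hypersurface satisfy one of the following conditions: `t = 0` and each `s i` is zero or
at least `M / (M - μ i)`; or `∑ c i s i + cD t ≥ M`.

`RamSurface x`: `X` is a surface, with arbitrary singularities, and there is a ramified map from `X`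
to a space of binary forms which is generically finite; or `X` is of general type and the ramified map
is not constant.

**Theorem.** (I) All surfaces `X` of this class are of general type. The closed curves of geometric
genus at most one in `X` are finite in number; the Zariski closure of each nonconstant entire curve is
one of them, and each of them is the Zariski closure of an entire curve; all other closed subvarieties
of positive dimension of `X` are of general type; the degree of each map from a curve of genus `g` to
`X` is at most `A (2 g - 2)`, or the image is one of these curves.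

(II) For these surfaces the following are equivalent: `X` is Kobayashi hyperbolic; `X` is Brody
hyperbolic; all closed subvarieties of positive dimension of `X` are of general type; `X` is
algebraically hyperbolic; the maps from each pointed curve to `X` with a given value at the point are
finite in number; there are no closed curves of geometric genus at most one in `X`.

(III) A numerical criterion for ramified maps: products of powers of the values at the points
`(1 : a i)` and of the discriminant of `y` are powers in `K` up to constants, and there are weights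
for which all possible orders of contact satisfy the condition.

(IV) Let `a i`, `i ≤ r`, be distinct numbers, `1 ≤ n`, `n + 1 ≤ r` and `n + r + 2 < m (r - 1)`, let
`Y(x) = (Y 0 (x), ..., Y (n + 1) (x))` be forms of degree `m` in `x 0, ..., x r`, and let `W` be the
projective variety with the equations `Y(x) (1 : a i) = x i ^ m` and
`disc Y(x) = x (r + 1) ^ (2 n m)`. All irreducible closed surfaces in `W` which are not contained in a
coordinate hyperplane belong to the class, and all their curves of geometric genus at most one are
contained in the coordinate hyperplanes; hence every nonconstant entire curve in such a surface is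
contained in a coordinate hyperplane. For `r = n + 1` there is for each `m` a `Y` with
`Y(x) (1 : a i) = x i ^ m`, and `W` is a hypersurface of degree `2 n m` in `P^(n + 2)`; the condition
is `2 n + 3 < n m`. For `n = 1` this is the surface `disc Y(x) = x 3 ^ (2 m)` in `P^3`, `m ≥ 6`.

`KobayashiHyp`, `BrodyHyp`, `AllGeneral`, `AlgHyp`, `GeomHyp` :
`Pool/Graph/R_pool_sql_team_seeded_3997aac3/Q103/SF/Defs2.lean`; `lowCurves`, `van` :
`Pool/Graph/R_pool_sql_team_seeded_3997aac3/Q103/SF/Defs.lean`; `GeneralType` :
`Pool/Graph/R_seed8/W602/GT/Defs.lean`; `RamSurface`, `CurveSets` : `Pool/Agent/H910/Cf/Sst.lean`;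
`RamP` : `Pool/Agent/H910/Cf/Prj.lean`; `Ram`, `Gen` : `Pool/Agent/H910/Cf/Defs.lean`; `Root`,
`Wts` : `Pool/Agent/H910/Cf/Crit.lean`; `Covering` : `Pool/Agent/H910/Cf/Stm.lean`; `OnCyclic` :
`Pool/Agent/H910/Cf/Pcv.lean`; `hyp`, `dsc` : `Pool/Agent/H910/Vf/Defs.lean`.
-/

set_option autoImplicit false
set_option linter.overlappingInstances false

open FF Pool.Agent.H910.Cf
open Pool.Agent.W602.GT (coords IsForm GeneralType)
open Pool.Agent.Y221.BD (EntireCurve)
open Pool.Agent.Q103.SF (lowCurves vanOn KobayashiHyp BrodyHyp AllGeneral AlgHyp GeomHyp)
open Pool.Agent.H910.Vf (hyp dsc)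

namespace Pool.Agent.Results.MP_c6ff8d_ag.SurfacesOverBinaryForms

/-- **Lang's conjecture for surfaces with ramified maps to the space of the binary forms.** See the
explanation at the beginning of the file. -/
theorem result :
    (∀ (M : ℕ) (K : Type) [Field K] [Algebra ℂ K] (x : Fin (M + 1) → K), RamSurface x →
      GeneralType ℂ K 2 ∧ CurveSets x ∧
      List.TFAE [KobayashiHyp x, BrodyHyp x, AllGeneral x, AlgHyp x, GeomHyp x,
        lowCurves x = ∅]) ∧
    (∀ (M : ℕ) (K : Type) [Field K] [Algebra ℂ K] (x : Fin (M + 1) → K), x ≠ 0 →
      coords ℂ x = ⊤ → Algebra.trdeg ℂ K = (2 : ℕ) →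
      ∀ (n q r : ℕ) (y : Fin (n + 2) → K) (a : Fin q → ℂ) (m : Fin r → ℕ) (c : Fin r → Fin q → ℕ)
        (d : Fin r → ℕ), Function.Injective a → Gen a y → (∀ l, Root a y (m l) (c l) (d l)) →
        (Wts n fun s t => ∀ l, m l ∣ ∑ i, c l i * s i + d l * t) →
        (Algebra.IsAlgebraic (coords ℂ y) K ∨ (GeneralType ℂ K 2 ∧ coords ℂ y ≠ ⊥)) →
        RamSurface x) ∧
    (∀ (n r m : ℕ) (a : Fin (r + 1) → ℂ) (Y : Fin (n + 2) → MvPolynomial (Fin (r + 1)) ℂ),
      Covering m a Y → 1 ≤ n → n + 1 ≤ r → n + r + 2 < m * (r - 1) →
      ∀ (K : Type) [Field K] [Algebra ℂ K] (x : Fin (r + 2) → K), OnCyclic m a Y x →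
        coords ℂ x = ⊤ → Algebra.trdeg ℂ K = (2 : ℕ) →
        RamSurface x ∧ (∀ V ∈ lowCurves x, ∏ i, MvPolynomial.X i ∈ V) ∧
        ∀ f, EntireCurve x f → ∀ t, ∃ i, f i t = 0) ∧
    (∀ (n m : ℕ) (a : Fin (n + 2) → ℂ), Function.Injective a →
      ∃ Y : Fin (n + 2) → MvPolynomial (Fin (n + 2)) ℂ, Covering m a Y ∧
        ∀ i, MvPolynomial.aeval Y (hyp ℂ (n + 1) 1 (a i)) = MvPolynomial.X i ^ m) := by
  refine ⟨fun M K _ _ x h => ⟨h.facts.1, h.curveSets, h.curveSets.tfae⟩,
    fun M K _ _ x hx hgen htr n q r y a m c d ha hy hroot hw h =>
      surface_criterion hx hgen htr ha hy hroot hw h,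
    fun n r m a Y hY hn hr hm K _ _ x hx hgen htr => ?_, fun n m a ha => exists_covering m ha⟩
  obtain ⟨h1, h2⟩ := cyc_surface hY hr hn hm hx hgen htr
  refine ⟨h1, h2, fun f hf t => ?_⟩
  have h3 := h2 _ (h1.curveSets.entire f hf)
  have h4 := h3.2 t (Set.mem_univ t)
  rw [map_prod] at h4
  obtain ⟨i, -, hi⟩ := Finset.prod_eq_zero_iff.1 h4
  rw [MvPolynomial.eval_X] at hi
  exact ⟨i, hi⟩

end Pool.Agent.Results.MP_c6ff8d_ag.SurfacesOverBinaryForms
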